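import Pool.Agent.R905.GO.Arr
import Pool.Agent.R905.WM.Models

/-!
# Smooth projective models suffice
-/

set_option autoImplicit false
set_option linter.all false

open AlgebraicGeometry CategoryTheory TopologicalSpace Pool.Agent.R904.CU Pool.Agent.R904
  Pool.Agent.R905.RF Pool.Agent.R905.WM

namespace Pool.Agent.R905.GO

variable {K : Type} [Field K] {P S : SchProp K} (h2 : TwoOfThree (SepFinType K) P)
  (hS : Models S) (h1 : ∀ X f, SepFinType K X f → S X f → P X f)

include h2 hS h1

/-- schemes of finite dimension -/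
lemma m_fin (X : Scheme.{0}) (f : X ⟶ Spec (.of K)) (hX : SepFinType K X f) (n : ℕ)
    (h4 : topologicalKrullDim X ≤ (n : ℕ)) : P X f := by
  haveI : LocallyOfFiniteType f := hX.1
  haveI : QuasiCompact f := hX.2.1
  haveI : IsSeparated f := hX.2.2
  haveI : IsReduced (Scheme.IdealSheafData.vanishingIdeal (⊤ : Closeds X)).subscheme :=
    isReduced_subscheme ⊤
  let r : (Scheme.IdealSheafData.vanishingIdeal (⊤ : Closeds X)).subscheme ⟶ X :=
    (Scheme.IdealSheafData.vanishingIdeal (⊤ : Closeds X)).subschemeι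
  let Xr : Var K := ⟨(Scheme.IdealSheafData.vanishingIdeal (⊤ : Closeds X)).subscheme,
    r ≫ f⟩
  haveI : IsClosedImmersion r := inferInstance
  have hdim : topologicalKrullDim Xr.sch < ((n + 1 : ℕ) : WithBot ℕ∞) := by
    have h3 : topologicalKrullDim Xr.sch ≤ topologicalKrullDim X :=
      r.isClosedEmbedding.isInducing.topologicalKrullDim_le
    refine lt_of_le_of_lt (h3.trans h4) ?_
    exact_mod_cast Nat.lt_succ_self _
  have hP := m_dim h2 hS h1 (n + 1) Xr hdim
  have hem : IsEmpty ((⊥ : X.Opens) : Scheme.{0}) := ⟨fun x => x.2⟩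
  have h5 := m_empty h2 hS h1 ((⊥ : X.Opens) : Scheme.{0}) ((⊥ : X.Opens).ι ≫ f)
  refine (h2 X Xr.sch ((⊥ : X.Opens) : Scheme.{0}) f r (⊥ : X.Opens).ι hX inferInstance
    inferInstance ?_).2.1 hP h5
  rw [Scheme.Opens.range_ι]
  change Set.range (Scheme.IdealSheafData.vanishingIdeal (⊤ : Closeds X)).subschemeι = _
  rw [Scheme.IdealSheafData.range_subschemeι, Scheme.IdealSheafData.coe_support_vanishingIdeal]
  simp

/-- all schemes -/
theorem all_of_models (X : Scheme.{0}) (f : X ⟶ Spec (.of K)) (hf : SepFinType K X f) :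
    P X f := by
  refine p_arr h2 ?_ X f hf
  intro σ _ a _
  refine m_fin h2 hS h1 _ _ ((cls_sepFinType K).affine _ inferInstance) (Fintype.card σ) ?_
  let u0 : EL.compl a ⟶ Spec (.of (MvPolynomial σ K)) :=
    Spec.map (CommRingCat.ofHom (algebraMap (MvPolynomial σ K) (Localization.Away a)))
  have hop : IsOpenImmersion u0 := IsOpenImmersion.of_isLocalization a
  have h3 : topologicalKrullDim (EL.compl a) ≤
      topologicalKrullDim (Spec (.of (MvPolynomial σ K))) :=
    u0.isOpenEmbedding.isInducing.topologicalKrullDim_le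
  refine h3.trans ?_
  change topologicalKrullDim (PrimeSpectrum (MvPolynomial σ K)) ≤ _
  rw [PrimeSpectrum.topologicalKrullDim_eq_ringKrullDim,
    MvPolynomial.ringKrullDim_of_isNoetherianRing, ringKrullDim_eq_zero_of_field, zero_add,
    Nat.card_eq_fintype_card]

end Pool.Agent.R905.GO
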