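import Pool.Agent.R904.EL.Main

/-!
# Properties with two-out-of-three and complements of elementary arrangements
-/

set_option autoImplicit false
set_option linter.all false

open AlgebraicGeometry CategoryTheory Pool.Agent.R904.CU Pool.Agent.R904

namespace Pool.Agent.R905.GO

variable {K : Type} [CommRing K] [IsNoetherianRing K] {P : SchProp K}

lemma arr_empty (h2 : TwoOfThree (SepFinType K) P) {Y : Scheme.{0}} {g : Y ⟶ Spec (.of K)}
    (hg : SepFinType K Y g) (hP : P Y g) (Z : Scheme.{0}) (f : Z ⟶ Spec (.of K)) (hZ : IsEmpty Z) :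
    P Z f := by
  let i : Z ⟶ Y := (isInitialOfIsEmpty (X := Z)).to Y
  have hi : IsClosedImmersion i := inferInstance
  have hr : Set.range i = (Set.range (𝟙 Y : Y ⟶ Y))ᶜ := by
    have ha : Set.range (𝟙 Y : Y ⟶ Y) = Set.univ := Set.range_eq_univ.2 (𝟙 Y : Y ⟶ Y).surjective
    rw [ha, Set.compl_univ]
    exact Set.range_eq_empty _
  have h3 := (h2 Y Z Y g i (𝟙 Y) hg hi inferInstance hr).2.2 hP (by
    rw [Category.id_comp]
    exact hP)
  have h4 : i ≫ g = f := (isInitialOfIsEmpty (X := Z)).hom_ext _ _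
  rwa [h4] at h3

lemma arr_iso (h2 : TwoOfThree (SepFinType K) P)
    (hem : ∀ (Z : Scheme.{0}) (f : Z ⟶ Spec (.of K)), IsEmpty Z → P Z f) {X Y : Scheme.{0}}
    (f : X ⟶ Spec (.of K)) (g : Y ⟶ Spec (.of K)) (e : X ≅ Y) (he : e.hom ≫ g = f)
    (hY : SepFinType K Y g) (h : P Y g) : P X f := by
  have hem' : IsEmpty ((⊥ : Y.Opens) : Scheme.{0}) := by
    refine ⟨fun x => ?_⟩
    exact x.2
  have h1 := hem ((⊥ : Y.Opens) : Scheme.{0}) ((⊥ : Y.Opens).ι ≫ g) hem'
  have h3 := (h2 Y X ((⊥ : Y.Opens) : Scheme.{0}) g e.hom (⊥ : Y.Opens).ι hY inferInstance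
    inferInstance (by
      have ha : Set.range e.hom = Set.univ := Set.range_eq_univ.2 e.hom.surjective
      have hb' : Set.range (⊥ : Y.Opens).ι = ∅ := by
        rw [Scheme.Opens.range_ι]
        rfl
      rw [ha, hb', Set.compl_empty])).2.2 h h1
  rwa [he] at h3

/-- **Complements of elementary arrangements suffice** for properties with two-out-of-three. -/
theorem p_arr (h2 : TwoOfThree (SepFinType K) P)
    (hS : ∀ (σ : Type) [Fintype σ], ∀ a ∈ EL.elemProds (Set.univ : Set K) σ,
      P (EL.compl a) (EL.complHom a)) (X : Scheme.{0}) (f : X ⟶ Spec (.of K))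
    (hf : SepFinType K X f) : P X f := by
  have hem : ∀ (Z : Scheme.{0}) (f : Z ⟶ Spec (.of K)), IsEmpty Z → P Z f :=
    arr_empty h2 ((cls_sepFinType K).affine _ inferInstance)
      (hS PEmpty 1 (Submonoid.one_mem _))
  have hG : EL.Glue (SepFinType K) (fun X f => SepFinType K X f → P X f) := by
    refine ⟨fun Z f hZ _ => hem Z f hZ, ?_, ?_, ?_⟩
    · intro X Y f g e he h hX
      have hY : SepFinType K Y g := by
        have h1 := (cls_sepFinType K).opn X Y f e.inv inferInstance hX
        rwa [← he, e.inv_hom_id_assoc] at h1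
      exact arr_iso h2 hem f g e he hY (h hY)
    · intro X Z U f i j hX hi hj hr hZ hU _
      exact (h2 X Z U f i j hX hi hj hr).2.1 (hZ ((cls_sepFinType K).closed _ _ _ _ hi hX))
        (hU ((cls_sepFinType K).opn _ _ _ _ hj hX))
    · intro X Z U f i j hX hi hj hr h hU _
      exact (h2 X Z U f i j hX hi hj hr).2.2 (h hX)
        (hU ((cls_sepFinType K).opn _ _ _ _ hj hX))
  exact EL.p_all (cls_sepFinType K) hG (K := Set.univ) (Set.mem_univ _) (Subring.closure_univ)
    (fun σ _ a ha _ => hS σ a ha) X f hf hf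

end Pool.Agent.R905.GO
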