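import Pool.Agent.R905.WM.Models
import Pool.Agent.R904.EL.Main

/-!
# Constituents of the cohomology of varieties
-/

set_option autoImplicit false
set_option linter.dupNamespace false

open AlgebraicGeometry CategoryTheory Pool.Agent.R904.CU

namespace Pool.Agent.R905.GO

section operators

variable {Λ Ω : Type} [Field Λ] {V W : Type} [AddCommGroup V] [Module Λ V] [AddCommGroup W]
  [Module Λ W]

/-- The only subspaces of `W` which are stable under the operators `σ g` are `0` and `W ≠ 0`. -/
def Simple (σ : Ω → Module.End Λ W) : Prop :=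
  (∃ x : W, x ≠ 0) ∧
    ∀ B : Submodule Λ W, (∀ g, ∀ x ∈ B, σ g x ∈ B) → B = ⊥ ∨ B = ⊤

/-- The subspace `B` of `V` is stable under all `ρ g`, and `u (ρ g x) = σ g (u x)`. -/
def Commutes (σ : Ω → Module.End Λ W) (ρ : Ω → Module.End Λ V) (B : Submodule Λ V)
    (u : B →ₗ[Λ] W) : Prop :=
  ∀ (g : Ω) (x : B), ∃ h : ρ g x ∈ B, u ⟨ρ g x, h⟩ = σ g (u x)

/-- `W`, with the operators `σ g`, is isomorphic to a subquotient of `V`, with the operators `ρ g`:
there is a surjective linear map `u` onto `W` from a subspace `B` of `V`, stable under all `ρ g`, with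
`u (ρ g x) = σ g (u x)`. -/
def Occurs (σ : Ω → Module.End Λ W) (ρ : Ω → Module.End Λ V) : Prop :=
  ∃ (B : Submodule Λ V) (u : B →ₗ[Λ] W), Function.Surjective u ∧ Commutes σ ρ B u

/-- There is an isomorphism of vector spaces `V = W` which carries `ρ g` to `σ g`, for all `g`. -/
def Equivalent (ρ : Ω → Module.End Λ V) (σ : Ω → Module.End Λ W) : Prop :=
  ∃ e : V ≃ₗ[Λ] W, ∀ (g : Ω) (x : V), e (ρ g x) = σ g (e x)

/-- the twist of the operators `σ` by the `n`-th power of the character `χ` -/
def twist (χ : Ω → Λˣ) (n : ℤ) (σ : Ω → Module.End Λ W) : Ω → Module.End Λ W :=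
  fun g => ((χ g ^ n : Λˣ) : Λ) • σ g

end operators

/-- the contragredient of a representation -/
def dual {Λ G : Type} [Field Λ] [Group G] {W : Type} [AddCommGroup W] [Module Λ W]
    (σ : G → Module.End Λ W) : G → Module.End Λ (Module.Dual Λ W) :=
  fun g => (σ g⁻¹).dualMap

/-- For every scheme `X` over `K` and every integer `n` a `Λ`-vector space `H X n` with a set `Ω` of
operators (for instance an `ℓ`-adic cohomology group over an algebraic closure of `K`, with the action
of the Galois group `Ω` of `K`). -/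
structure Cohomology (K Λ Ω : Type) [Field K] [Field Λ] where
  H : ∀ X : Scheme.{0}, (X ⟶ Spec (.of K)) → ℤ → Type
  [group : ∀ X f n, AddCommGroup (H X f n)]
  [module : ∀ X f n, Module Λ (H X f n)]
  ρ : ∀ X f n, Ω → Module.End Λ (H X f n)

attribute [instance] Cohomology.group Cohomology.module

namespace Cohomology

variable {K Λ Ω : Type} [Field K] [Field Λ] (T : Cohomology K Λ Ω)

/-- the linear maps from `H X n` to `H Y m` -/
abbrev Map (X : Scheme.{0}) (f : X ⟶ Spec (.of K)) (n : ℤ) (Y : Scheme.{0})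
    (g : Y ⟶ Spec (.of K)) (m : ℤ) : Type := T.H X f n →ₗ[Λ] T.H Y g m

/-- `u` commutes with the operators -/
def Compatible {X Y : Scheme.{0}} {f : X ⟶ Spec (.of K)} {g : Y ⟶ Spec (.of K)} {n m : ℤ}
    (u : T.Map X f n Y g m) : Prop :=
  ∀ (s : Ω) (x : T.H X f n), u (T.ρ X f n s x) = T.ρ Y g m s (u x)

/-- a long exact sequence `… → H^n(U) → H^n(X) → H^n(Z) → H^{n+1}(U) → …` of maps commuting with
the operators -/
def Sequence {X Z U : Scheme.{0}} (f : X ⟶ Spec (.of K)) (g : Z ⟶ Spec (.of K))
    (h : U ⟶ Spec (.of K)) : Prop :=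
  ∃ (a : ∀ n, T.Map U h n X f n) (b : ∀ n, T.Map X f n Z g n) (c : ∀ n m, T.Map Z g n U h m),
    (∀ n, T.Compatible (a n) ∧ T.Compatible (b n) ∧ T.Compatible (c n (n + 1))) ∧
    ∀ n m, m = n + 1 → Function.Exact (a n) (b n) ∧ Function.Exact (b n) (c n m) ∧
      Function.Exact (c n m) (a m)

/-- the long exact sequence of a closed subscheme `Z` of `X` and its complement `U` -/
def LongExact : Prop :=
  ∀ (X Z U : Scheme.{0}) (f : X ⟶ Spec (.of K)) (i : Z ⟶ X) (j : U ⟶ X), SepFinType K X f →
    IsClosedImmersion i → IsOpenImmersion j → Set.range i = (Set.range j)ᶜ →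
    T.Sequence f (i ≫ f) (j ≫ f)

/-- `H^{n+2r}(E) = H^n(X)(-r)` for an affine bundle `E → X` of dimension `r` -/
def Bundle (χ : Ω → Λˣ) : Prop :=
  ∀ (r : ℕ) (E X : Scheme.{0}) (π : E ⟶ X) (f : X ⟶ Spec (.of K)), SepFinType K X f →
    SepFinType K E (π ≫ f) → IsAffineBundle r π → ∀ n m : ℤ, m = n + 2 * r →
    Equivalent (twist χ (-r) (T.ρ X f n)) (T.ρ E (π ≫ f) m)

/-- the formal properties of the cohomology with compact supports; `χ` is the cyclotomic character -/
def CompactSupports (χ : Ω → Λˣ) : Prop := T.LongExact ∧ T.Bundle χ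

/-- Some twist of `σ` by a power of `χ` is a subquotient of some cohomology group of `X`. -/
def OccursIn (χ : Ω → Λˣ) {W : Type} [AddCommGroup W] [Module Λ W] (σ : Ω → Module.End Λ W)
    (X : Scheme.{0}) (f : X ⟶ Spec (.of K)) : Prop :=
  ∃ (i n : ℤ), Occurs (twist χ n σ) (T.ρ X f i)

end Cohomology

namespace Cohomology

variable {K Λ G : Type} [Field K] [Field Λ] [Group G]

/-- Poincaré duality for `X`: for some integer `d` and all `n`, the representation `H^n(X)` is the dual
of `H^{2d-n}_c(X)`, twisted by the power `-d` of `χ`. -/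
def DualOn (H Hc : Cohomology K Λ G) (χ : G → Λˣ) (X : Scheme.{0}) (f : X ⟶ Spec (.of K)) : Prop :=
  ∃ d : ℤ, ∀ n m : ℤ, m = 2 * d - n →
    Equivalent (twist χ (-d) (dual (Hc.ρ X f m))) (H.ρ X f n)

/-- Poincaré duality for the smooth hypersurfaces of degree at most three in affine spaces and for the
complements `a ≠ 0` of hypersurfaces in affine spaces, where `a` is a product of polynomials of the
forms `xᵢ xⱼ - xₖ`, `xᵢ + xⱼ - xₖ`, `xᵢ - c` (all these schemes are smooth and equidimensional) -/
def Duality (H Hc : Cohomology K Λ G) (χ : G → Λˣ) : Prop :=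
  (∀ (ι : Type) [Fintype ι] (F : MvPolynomial ι K), IsSmoothCubic F → DualOn H Hc χ _ (hyp F)) ∧
    ∀ (ι : Type) [Fintype ι], ∀ a ∈ Pool.Agent.R904.EL.elemProds (Set.univ : Set K) ι,
      DualOn H Hc χ _ (Pool.Agent.R904.EL.complHom a)

/-- The dual of a (finite-dimensional) irreducible subquotient `τ` of the cohomology of a variety is,
up to a twist, a subquotient of the cohomology with compact supports of a variety. (For `ℓ`-adic
cohomology this follows from the existence of alterations and Poincaré duality for smooth varieties.) -/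
def Alterations (H Hc : Cohomology K Λ G) (χ : G → Λˣ) : Prop :=
  ∀ (X : Scheme.{0}) (f : X ⟶ Spec (.of K)), SepFinType K X f → ∀ (n : ℤ) (W : Type)
    [AddCommGroup W] [Module Λ W] [Module.Finite Λ W] (τ : G → Module.End Λ W), Simple τ →
      Occurs τ (H.ρ X f n) → ∃ (Y : Scheme.{0}) (g : Y ⟶ Spec (.of K)), SepFinType K Y g ∧
        Hc.OccursIn χ (dual τ) Y g

end Cohomology

end Pool.Agent.R905.GO
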