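import Pool.Agent.R905.GO.Defs

/-!
# Constituents and exact sequences
-/

set_option autoImplicit false
set_option linter.all false

namespace Pool.Agent.R905.GO

variable {Λ Ω : Type} [Field Λ] {A B C V V' W W' : Type}
  [AddCommGroup A] [Module Λ A] [AddCommGroup B] [Module Λ B] [AddCommGroup C] [Module Λ C]
  [AddCommGroup V] [Module Λ V] [AddCommGroup V'] [Module Λ V'] [AddCommGroup W] [Module Λ W]
  [AddCommGroup W'] [Module Λ W']

lemma twist_apply (χ : Ω → Λˣ) (n : ℤ) (σ : Ω → Module.End Λ W) (g : Ω) (x : W) :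
    twist χ n σ g x = ((χ g ^ n : Λˣ) : Λ) • σ g x := rfl

lemma twist_twist (χ : Ω → Λˣ) (n m : ℤ) (σ : Ω → Module.End Λ W) :
    twist χ n (twist χ m σ) = twist χ (n + m) σ := by
  funext g
  ext x
  simp only [twist_apply]
  rw [smul_smul, ← Units.val_mul, ← zpow_add]

lemma twist_zero (χ : Ω → Λˣ) (σ : Ω → Module.End Λ W) : twist χ 0 σ = σ := by
  funext g
  ext x
  simp [twist_apply]

lemma simple_twist (χ : Ω → Λˣ) (n : ℤ) {σ : Ω → Module.End Λ W} (h : Simple σ) :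
    Simple (twist χ n σ) := by
  refine ⟨h.1, fun B hB => h.2 B fun g x hx => ?_⟩
  have h1 := B.smul_mem ((χ g ^ (-n) : Λˣ) : Λ) (hB g x hx)
  rw [twist_apply, smul_smul, ← Units.val_mul, ← zpow_add] at h1
  simpa using h1

lemma occurs_twist (χ : Ω → Λˣ) (n : ℤ) {σ : Ω → Module.End Λ W} {ρ : Ω → Module.End Λ V}
    (h : Occurs σ ρ) : Occurs (twist χ n σ) (twist χ n ρ) := by
  obtain ⟨N, u, hu, he⟩ := h
  refine ⟨N, u, hu, fun g x => ?_⟩
  obtain ⟨h1, h2⟩ := he g x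
  have h3 : twist χ n ρ g x ∈ N := N.smul_mem _ h1
  refine ⟨h3, ?_⟩
  have h4 : (⟨twist χ n ρ g x, h3⟩ : N) = ((χ g ^ n : Λˣ) : Λ) • ⟨ρ g x, h1⟩ := rfl
  rw [h4, map_smul, h2]
  rfl

/-- an injective equivariant map -/
lemma occurs_inj {σ : Ω → Module.End Λ W} {ρ : Ω → Module.End Λ V} {ρ' : Ω → Module.End Λ V'}
    (e : V →ₗ[Λ] V') (he : Function.Injective e) (hc : ∀ g x, e (ρ g x) = ρ' g (e x))
    (h : Occurs σ ρ) : Occurs σ ρ' := by
  obtain ⟨N, u, hu, hN⟩ := h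
  let f : N ≃ₗ[Λ] N.map e := Submodule.equivMapOfInjective e he N
  refine ⟨N.map e, u ∘ₗ f.symm.toLinearMap, hu.comp f.symm.surjective, fun g x => ?_⟩
  obtain ⟨y, rfl⟩ := f.surjective x
  obtain ⟨h1, h2⟩ := hN g y
  have h3 : (f y : V') = e y := rfl
  have h4 : ρ' g (f y) ∈ N.map e := by
    rw [h3, ← hc]
    exact ⟨_, h1, rfl⟩
  refine ⟨h4, ?_⟩
  have h5 : (⟨ρ' g (f y), h4⟩ : N.map e) = f ⟨ρ g y, h1⟩ := by
    apply Subtype.ext
    change ρ' g (f y) = e (ρ g y)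
    rw [h3, hc]
  rw [h5]
  change u (f.symm (f _)) = σ g (u (f.symm (f y)))
  rw [f.symm_apply_apply, f.symm_apply_apply, h2]

lemma occurs_equiv {σ : Ω → Module.End Λ W} {ρ : Ω → Module.End Λ V} {ρ' : Ω → Module.End Λ V'}
    (e : V ≃ₗ[Λ] V') (hc : ∀ g x, e (ρ g x) = ρ' g (e x)) : Occurs σ ρ ↔ Occurs σ ρ' := by
  refine ⟨occurs_inj e.toLinearMap e.injective hc, occurs_inj e.symm.toLinearMap e.symm.injective ?_⟩
  intro g x
  obtain ⟨y, rfl⟩ := e.surjective x
  change e.symm (ρ' g (e y)) = ρ g (e.symm (e y))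
  rw [← hc, e.symm_apply_apply, e.symm_apply_apply]

/-- an equivariant isomorphism of the constituents -/
lemma occurs_left {σ : Ω → Module.End Λ W} {σ' : Ω → Module.End Λ W'} {ρ : Ω → Module.End Λ V}
    (e : W ≃ₗ[Λ] W') (hc : ∀ g x, e (σ g x) = σ' g (e x)) (h : Occurs σ ρ) : Occurs σ' ρ := by
  obtain ⟨N, u, hu, hN⟩ := h
  refine ⟨N, e.toLinearMap ∘ₗ u, e.surjective.comp hu, fun g x => ?_⟩
  obtain ⟨h1, h2⟩ := hN g x
  refine ⟨h1, ?_⟩
  change e (u _) = σ' g (e (u x))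
  rw [h2, hc]

/-- A constituent of the middle term of an exact sequence is a constituent of one of the other two. -/
lemma occurs_exact {σ : Ω → Module.End Λ W} (hσ : Simple σ) {α : Ω → Module.End Λ A}
    {β : Ω → Module.End Λ B} {γ : Ω → Module.End Λ C} (a : A →ₗ[Λ] B) (b : B →ₗ[Λ] C)
    (ha : ∀ g x, a (α g x) = β g (a x)) (hb : ∀ g x, b (β g x) = γ g (b x))
    (hab : Function.Exact a b) (h : Occurs σ β) : Occurs σ α ∨ Occurs σ γ := by
  obtain ⟨N, u, hu, hN⟩ := h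
  -- the image of the kernel of `b`
  let bN : N →ₗ[Λ] C := b ∘ₗ N.subtype
  let W0 : Submodule Λ W := (LinearMap.ker bN).map u
  have hW0 : ∀ g, ∀ x ∈ W0, σ g x ∈ W0 := by
    rintro g _ ⟨x, hx, rfl⟩
    obtain ⟨h1, h2⟩ := hN g x
    refine ⟨⟨β g x, h1⟩, ?_, h2⟩
    change b (β g x) = 0
    rw [hb]
    have h3 : b (x : B) = 0 := hx
    rw [h3, map_zero]
  rcases hσ.2 W0 hW0 with h0 | h1
  · right
    have hker : ∀ x : N, b x = 0 → u x = 0 := by
      intro x hx
      have h2 : u x ∈ W0 := ⟨x, hx, rfl⟩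
      rw [h0] at h2
      exact h2
    obtain ⟨s, hs⟩ := bN.rangeRestrict.exists_rightInverse_of_surjective bN.range_rangeRestrict
    have hs' : ∀ y, bN.rangeRestrict (s y) = y := fun y => LinearMap.congr_fun hs y
    have hus : ∀ x : N, u (s ⟨bN x, ⟨x, rfl⟩⟩) = u x := by
      intro x
      rw [← sub_eq_zero, ← map_sub]
      apply hker
      have h2 := congrArg (Subtype.val) (hs' ⟨bN x, ⟨x, rfl⟩⟩)
      change b (s _) = b x at h2
      change b ((s _ : B) - x) = 0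
      rw [map_sub, h2, sub_self]
    refine ⟨LinearMap.range bN, u ∘ₗ s, ?_, ?_⟩
    · intro w
      obtain ⟨x, rfl⟩ := hu w
      exact ⟨⟨bN x, ⟨x, rfl⟩⟩, hus x⟩
    · rintro g ⟨_, ⟨x, rfl⟩⟩
      obtain ⟨h3, h4⟩ := hN g x
      have h5 : γ g (bN x) = bN ⟨β g x, h3⟩ := (hb g x).symm
      refine ⟨h5 ▸ ⟨_, rfl⟩, ?_⟩
      change u (s ⟨γ g (bN x), _⟩) = σ g (u (s ⟨bN x, _⟩))
      rw [hus x, ← h4, ← hus ⟨β g x, h3⟩]
      congr 2
      exact Subtype.ext h5
  · left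
    let M : Submodule Λ A := N.comap a
    let aM : M →ₗ[Λ] N := (a ∘ₗ M.subtype).codRestrict N (fun x => x.2)
    refine ⟨M, u ∘ₗ aM, ?_, ?_⟩
    · intro w
      have h2 : w ∈ W0 := by rw [h1]; trivial
      obtain ⟨x, hx, rfl⟩ := h2
      obtain ⟨y, hy⟩ := (hab x).1 hx
      refine ⟨⟨y, ?_⟩, ?_⟩
      · change a y ∈ N
        rw [hy]
        exact x.2
      · change u (aM _) = u x
        congr 1
        exact Subtype.ext hy
    · intro g x
      obtain ⟨h3, h4⟩ := hN g (aM x)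
      have h5 : a (α g x) = β g (a x) := ha g x
      refine ⟨?_, ?_⟩
      · change a (α g x) ∈ N
        rw [h5]
        exact h3
      · change u (aM _) = σ g (u (aM x))
        rw [← h4]
        congr 1
        exact Subtype.ext h5

/-! ### duals -/

section dual

variable {G : Type} [Group G]

lemma dual_apply (σ : G → Module.End Λ W) (g : G) (φ : Module.Dual Λ W) (x : W) :
    dual σ g φ x = φ (σ g⁻¹ x) := rfl

lemma dual_twist (χ : G →* Λˣ) (n : ℤ) (σ : G → Module.End Λ W) :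
    dual (twist χ n σ) = twist χ (-n) (dual σ) := by
  funext g
  ext φ x
  rw [dual_apply, twist_apply, twist_apply, map_smul, map_inv, LinearMap.smul_apply, dual_apply]
  congr 2
  rw [inv_zpow, zpow_neg]

lemma simple_dual [Module.Finite Λ W] {σ : G → Module.End Λ W} (h : Simple σ) :
    Simple (dual σ) := by
  obtain ⟨⟨x, hx⟩, h2⟩ := h
  constructor
  · by_contra hne
    push_neg at hne
    have h3 : ∀ φ : Module.Dual Λ W, φ x = 0 := fun φ => by rw [hne φ]; rfl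
    exact hx ((Module.forall_dual_apply_eq_zero_iff Λ x).1 h3)
  · intro B hB
    have h3 := h2 B.dualCoannihilator (fun g x hx => by
      rw [Submodule.mem_dualCoannihilator] at hx ⊢
      intro φ hφ
      have h4 := hx _ (hB g⁻¹ φ hφ)
      rwa [dual_apply, inv_inv] at h4)
    have h4 : B.dualCoannihilator.dualAnnihilator = B := Subspace.dualCoannihilator_dualAnnihilator_eq
    rcases h3 with h3 | h3
    · right
      rw [← h4, h3, Submodule.dualAnnihilator_bot]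
    · left
      rw [← h4, h3, Submodule.dualAnnihilator_top]

/-- the dual of a subquotient is a subquotient of the dual -/
lemma occurs_dual {σ : G → Module.End Λ W} {ρ : G → Module.End Λ V} (h : Occurs σ ρ) :
    Occurs (dual σ) (dual ρ) := by
  obtain ⟨N, u, hu, hN⟩ := h
  have hinj : Function.Injective u.dualMap := LinearMap.dualMap_injective_of_surjective hu
  let r : Module.Dual Λ V →ₗ[Λ] Module.Dual Λ N := N.subtype.dualMap
  let f : Module.Dual Λ W ≃ₗ[Λ] LinearMap.range u.dualMap := LinearEquiv.ofInjective _ hinj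
  let M : Submodule Λ (Module.Dual Λ V) := (LinearMap.range u.dualMap).comap r
  let rM : M →ₗ[Λ] LinearMap.range u.dualMap := (r ∘ₗ M.subtype).codRestrict _ (fun x => x.2)
  have key : ∀ x : M, ∃ φ : Module.Dual Λ W, (∀ y : N, (x : Module.Dual Λ V) y = φ (u y)) ∧
      f.symm (rM x) = φ := by
    intro x
    obtain ⟨φ, hφ⟩ := x.2
    refine ⟨φ, fun y => (LinearMap.congr_fun hφ y).symm, ?_⟩
    rw [LinearEquiv.symm_apply_eq]
    exact Subtype.ext hφ.symm
  have uniq : ∀ (x : M) (φ : Module.Dual Λ W), (∀ y : N, (x : Module.Dual Λ V) y = φ (u y)) →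
      f.symm (rM x) = φ := by
    intro x φ hφ
    rw [LinearEquiv.symm_apply_eq]
    apply Subtype.ext
    exact LinearMap.ext hφ
  refine ⟨M, f.symm.toLinearMap ∘ₗ rM, ?_, ?_⟩
  · intro φ
    obtain ⟨ψ, hψ⟩ := LinearMap.exists_extend (p := N) (u.dualMap φ)
    have h1 : ∀ y : N, ψ y = φ (u y) := fun y => LinearMap.congr_fun hψ y
    have h2 : ψ ∈ M := ⟨φ, (LinearMap.ext h1).symm⟩
    exact ⟨⟨ψ, h2⟩, uniq ⟨ψ, h2⟩ φ h1⟩
  · intro g x
    obtain ⟨φ, hφ, hx⟩ := key x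
    have h1 : ∀ y : N, (dual ρ g x) y = (dual σ g φ) (u y) := by
      intro y
      obtain ⟨h2, h3⟩ := hN g⁻¹ y
      rw [dual_apply, dual_apply, ← h3]
      exact hφ ⟨_, h2⟩
    have h2 : dual ρ g x ∈ M := ⟨dual σ g φ, (LinearMap.ext h1).symm⟩
    refine ⟨h2, ?_⟩
    change f.symm (rM _) = dual σ g (f.symm (rM x))
    rw [hx]
    exact uniq ⟨_, h2⟩ _ h1

end dual

end Pool.Agent.R905.GO
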