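import Pool.Agent.R905.GO.Plain

/-!
# Geometric origin and families of smooth affine cubic hypersurfaces

`K` is the function field of `X` over a separable closure of `k`, `G` its absolute Galois group and
`T.H Y n` the cohomology with compact supports `H^n_c(Y)`, with coefficients in `Λ`, of a `K`-scheme
`Y` over an algebraic closure of `K`, with the action of `G`. An irreducible lisse sheaf on `X` (over
the closure of `k`) is the same as an irreducible representation `σ` of `G` which is unramified over
`X`, and it is of geometric origin if and only if `σ` is a subquotient of the cohomology of a smooth
projective `K`-scheme; (3) below means that its restriction to a dense open subset `U` is a subquotient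
of `R^i π_! Λ`, where `π` is a family over `U` of smooth hypersurfaces of degree at most three in an
affine space.
-/

set_option autoImplicit false

open AlgebraicGeometry Pool.Agent.R904.CU Pool.Agent.R904.EL Pool.Agent.R905.GO

namespace Pool.Agent.R905.GO.Lisse

/-- Let `S` be a class of schemes such as the smooth projective `K`-schemes. For an irreducible
representation `σ` of `G` (more generally, an irreducible space with operators indexed by `G`) the
following are equivalent: `σ` is a subquotient of the cohomology with
compact supports of (1) some scheme in `S`; (2) some separated scheme of finite type over `K`;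
(3) some smooth hypersurface of degree at most three in an affine space over `K`; (4) the complement
`a ≠ 0` of a hypersurface in an affine space over `K`, for some product `a` of polynomials of the forms
`xᵢ xⱼ - xₖ`, `xᵢ + xⱼ - xₖ` and `xᵢ - c` with `c` in `K`. -/
theorem result (K Λ G : Type) [Field K] [Field Λ] [Group G] (T : Cohomology K Λ G)
    (hL : T.LongExact) (hB : T.PlainBundle) (S : SchProp K) (hS : T.Supplied S)
    (W : Type) [AddCommGroup W] [Module Λ W] (σ : G → Module.End Λ W) (hσ : Simple σ) :
    [∃ X f, SepFinType K X f ∧ S X f ∧ T.PlainOccursIn σ X f,
     ∃ X f, SepFinType K X f ∧ T.PlainOccursIn σ X f,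
     ∃ (ι : Type) (_ : Fintype ι) (F : MvPolynomial ι K), IsSmoothCubic F ∧
       T.PlainOccursIn σ _ (hyp F),
     ∃ (ι : Type) (_ : Fintype ι) (a : MvPolynomial ι K), a ∈ elemProds (Set.univ : Set K) ι ∧
       T.PlainOccursIn σ _ (complHom a)].TFAE :=
  Cohomology.plain_supplied hL hB hσ hS

end Pool.Agent.R905.GO.Lisse
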