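import Pool.Agent.R905.GO.Lin
import Pool.Agent.R905.GO.Arr

/-!
# Constituents of the cohomology of varieties: proofs
-/

set_option autoImplicit false
set_option linter.all false

open AlgebraicGeometry CategoryTheory Pool.Agent.R904.CU Pool.Agent.R904

namespace Pool.Agent.R905.GO.Cohomology

variable {K Λ Ω : Type} [Field K] [Field Λ] {T : Cohomology K Λ Ω} {χ : Ω → Λˣ} {W : Type}
  [AddCommGroup W] [Module Λ W] {σ : Ω → Module.End Λ W}

/-- no twist of `σ` occurs in the cohomology of `X` -/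
def Absent (T : Cohomology K Λ Ω) (χ : Ω → Λˣ) (σ : Ω → Module.End Λ W) : SchProp K :=
  fun X f => ¬ T.OccursIn χ σ X f

theorem twoOfThree (hT : T.LongExact) (hσ : Simple σ) :
    TwoOfThree (SepFinType K) (T.Absent χ σ) := by
  intro X Z U f i j hf hi hj hr
  obtain ⟨a, b, c, hc, he⟩ := hT X Z U f i j hf hi hj hr
  refine ⟨?_, ?_, ?_⟩
  · rintro hZ hX ⟨n, t, h⟩
    obtain ⟨n, rfl⟩ : ∃ n', n = n' + 1 := ⟨n - 1, by ring⟩
    rcases occurs_exact (simple_twist χ t hσ) (c n (n + 1)) (a (n + 1)) (hc n).2.2 (hc (n + 1)).1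
      (he n _ rfl).2.2 h with h | h
    · exact hZ ⟨_, _, h⟩
    · exact hX ⟨_, _, h⟩
  · rintro hZ hU ⟨n, t, h⟩
    rcases occurs_exact (simple_twist χ t hσ) (a n) (b n) (hc n).1 (hc n).2.1 (he n _ rfl).1 h
      with h | h
    · exact hU ⟨_, _, h⟩
    · exact hZ ⟨_, _, h⟩
  · rintro hX hU ⟨n, t, h⟩
    rcases occurs_exact (simple_twist χ t hσ) (b n) (c n (n + 1)) (hc n).2.1 (hc n).2.2
      (he n _ rfl).2.1 h with h | h
    · exact hX ⟨_, _, h⟩
    · exact hU ⟨_, _, h⟩

theorem bundleInvariant (hT : T.Bundle χ) :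
    BundleInvariant (SepFinType K) (T.Absent χ σ) := by
  intro r E X π f hX hE hπ
  refine not_congr ⟨?_, ?_⟩
  · rintro ⟨m, t, h⟩
    obtain ⟨e, he⟩ := hT r E X π f hX hE hπ (m - 2 * r) m (by ring)
    have h1 := occurs_twist χ r ((occurs_equiv e he).2 h)
    rw [twist_twist, twist_twist, add_neg_cancel, twist_zero] at h1
    exact ⟨_, _, h1⟩
  · rintro ⟨n, t, h⟩
    obtain ⟨e, he⟩ := hT r E X π f hX hE hπ n _ rfl
    have h1 := (occurs_equiv e he).1 (occurs_twist χ (-r) h)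
    rw [twist_twist] at h1
    exact ⟨_, _, h1⟩

/-- constituents of the cohomology with compact supports -/
theorem compact (hT : T.CompactSupports χ) (hσ : Simple σ) :
    (∃ X f, SepFinType K X f ∧ T.OccursIn χ σ X f) ↔
      ∃ (ι : Type) (_ : Fintype ι) (F : MvPolynomial ι K), IsSmoothCubic F ∧
        T.OccursIn χ σ _ (hyp F) := by
  constructor
  · rintro ⟨X, f, hf, h⟩
    by_contra hne
    refine p_all (P := T.Absent χ σ) (cls_sepFinType K) (twoOfThree hT.1 hσ)
      (bundleInvariant hT.2) ?_ X f hf h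
    intro ι _ F hF h1
    exact hne ⟨ι, inferInstance, F, hF, h1⟩
  · rintro ⟨ι, _, F, -, h⟩
    exact ⟨_, _, (cls_sepFinType K).affine _ inferInstance, h⟩

/-- constituents of the cohomology with compact supports of complements of elementary arrangements;
no twists are needed -/
theorem arrangement (hT : T.LongExact) (hσ : Simple σ) :
    (∃ X f, SepFinType K X f ∧ T.OccursIn χ σ X f) ↔
      ∃ (ι : Type) (_ : Fintype ι) (a : MvPolynomial ι K), a ∈ EL.elemProds (Set.univ : Set K) ι ∧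
        T.OccursIn χ σ _ (EL.complHom a) := by
  constructor
  · rintro ⟨X, f, hf, h⟩
    by_contra hne
    refine p_arr (P := T.Absent χ σ) (twoOfThree hT hσ) ?_ X f hf h
    intro ι _ a ha h1
    exact hne ⟨ι, inferInstance, a, ha, h1⟩
  · rintro ⟨ι, _, a, -, h⟩
    exact ⟨_, _, (cls_sepFinType K).affine _ inferInstance, h⟩

/-- the same with a class `S` of models -/
theorem models (hT : T.CompactSupports χ) (hσ : Simple σ) {S : SchProp K} (hS : WM.Models S) :
    [∃ X f, SepFinType K X f ∧ S X f ∧ T.OccursIn χ σ X f,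
     ∃ X f, SepFinType K X f ∧ T.OccursIn χ σ X f,
     ∃ (ι : Type) (_ : Fintype ι) (F : MvPolynomial ι K), IsSmoothCubic F ∧
       T.OccursIn χ σ _ (hyp F),
     ∃ (ι : Type) (_ : Fintype ι) (a : MvPolynomial ι K), a ∈ EL.elemProds (Set.univ : Set K) ι ∧
       T.OccursIn χ σ _ (EL.complHom a)].TFAE := by
  have h := WM.tfae_cubic (P := T.Absent χ σ) (twoOfThree hT.1 hσ) (bundleInvariant hT.2) hS
  tfae_have 1 → 2 := fun ⟨X, f, hf, _, h1⟩ => ⟨X, f, hf, h1⟩
  tfae_have 2 ↔ 3 := compact hT hσ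
  tfae_have 2 ↔ 4 := arrangement hT.1 hσ
  tfae_have 2 → 1 := by
    rintro ⟨X, f, hf, h1⟩
    by_contra hne
    have h3 : ∀ X f, SepFinType K X f → S X f → T.Absent χ σ X f :=
      fun Y g hg hY h2 => hne ⟨Y, g, hg, hY, h2⟩
    have h4 : (∀ X f, SepFinType K X f → S X f → T.Absent χ σ X f) →
        ∀ X f, SepFinType K X f → T.Absent χ σ X f := (h.out 0 1).1
    exact h4 h3 X f hf h1
  tfae_finish

section dual

variable {G : Type} [Group G] {H Hc : Cohomology K Λ G} {χ : G →* Λˣ} [Module.Finite Λ W]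
  {σ : G → Module.End Λ W}

lemma dual_dual (hσ : Simple σ) {V : Type} [AddCommGroup V] [Module Λ V]
    {ρ : G → Module.End Λ V} (h : Occurs (dual (dual σ)) ρ) : Occurs σ ρ := by
  refine occurs_left (Module.evalEquiv Λ W).symm ?_ h
  intro g x
  obtain ⟨y, rfl⟩ := (Module.evalEquiv Λ W).surjective x
  rw [LinearEquiv.symm_apply_apply, LinearEquiv.symm_apply_eq]
  ext φ
  rw [dual_apply, Module.evalEquiv_apply, Module.evalEquiv_apply, Module.Dual.eval_apply,
    Module.Dual.eval_apply, dual_apply, inv_inv]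

/-- from the cohomology with compact supports to the cohomology -/
lemma of_dualOn (hσ : Simple σ) {X : Scheme.{0}} {f : X ⟶ Spec (.of K)} (hD : DualOn H Hc χ X f)
    (h : Hc.OccursIn χ (dual σ) X f) : H.OccursIn χ σ X f := by
  obtain ⟨m', s', h2⟩ := h
  obtain ⟨d, hd⟩ := hD
  obtain ⟨e, he⟩ := hd (2 * d - m') m' (by ring)
  have h3 := (occurs_equiv e he).1 (occurs_twist χ (-d) (occurs_dual h2))
  rw [dual_twist, twist_twist] at h3
  refine ⟨2 * d - m', -d + -s', ?_⟩
  have h4 := occurs_twist χ (-(-d + -s')) h3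
  rw [twist_twist, neg_add_cancel, twist_zero] at h4
  have h5 := occurs_twist χ (-d + -s') (dual_dual hσ h4)
  rwa [twist_twist, add_neg_cancel, twist_zero] at h5

lemma dualize (hA : Alterations H Hc χ) (hσ : Simple σ) {X : Scheme.{0}}
    {f : X ⟶ Spec (.of K)} (hf : SepFinType K X f) (h : H.OccursIn χ σ X f) :
    ∃ Y g, SepFinType K Y g ∧ Hc.OccursIn χ (dual σ) Y g := by
  obtain ⟨n, t, h⟩ := h
  obtain ⟨Y, g, hg, m, s, h1⟩ := hA X f hf n W (twist χ t σ) (simple_twist χ t hσ) h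
  rw [dual_twist, twist_twist] at h1
  exact ⟨Y, g, hg, m, _, h1⟩

/-- constituents of the cohomology of all varieties -/
theorem ordinary (hT : Hc.CompactSupports χ) (hD : Duality H Hc χ) (hA : Alterations H Hc χ)
    (hσ : Simple σ) :
    (∃ X f, SepFinType K X f ∧ H.OccursIn χ σ X f) ↔
      ∃ (ι : Type) (_ : Fintype ι) (F : MvPolynomial ι K), IsSmoothCubic F ∧
        H.OccursIn χ σ _ (hyp F) := by
  constructor
  · rintro ⟨X, f, hf, h⟩
    obtain ⟨ι, hι, F, hF, h2⟩ := (compact hT (simple_dual hσ)).1 (dualize hA hσ hf h)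
    exact ⟨ι, hι, F, hF, of_dualOn hσ (hD.1 ι F hF) h2⟩
  · rintro ⟨ι, _, F, -, h⟩
    exact ⟨_, _, (cls_sepFinType K).affine _ inferInstance, h⟩

/-- the same with complements of elementary arrangements -/
theorem ordinary_arr (hT : Hc.LongExact) (hD : Duality H Hc χ) (hA : Alterations H Hc χ)
    (hσ : Simple σ) :
    (∃ X f, SepFinType K X f ∧ H.OccursIn χ σ X f) ↔
      ∃ (ι : Type) (_ : Fintype ι) (a : MvPolynomial ι K), a ∈ EL.elemProds (Set.univ : Set K) ι ∧
        H.OccursIn χ σ _ (EL.complHom a) := by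
  constructor
  · rintro ⟨X, f, hf, h⟩
    obtain ⟨ι, hι, a, ha, h2⟩ := (arrangement hT (simple_dual hσ)).1 (dualize hA hσ hf h)
    exact ⟨ι, hι, a, ha, of_dualOn hσ (hD.2 ι a ha) h2⟩
  · rintro ⟨ι, _, a, -, h⟩
    exact ⟨_, _, (cls_sepFinType K).affine _ inferInstance, h⟩

end dual

end Pool.Agent.R905.GO.Cohomology
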