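import Pool.Agent.R905.GO.Main
import Pool.Agent.R905.GO.All

/-!
# Constituents of the cohomology of varieties, without twists
-/

set_option autoImplicit false
set_option linter.dupNamespace false

open AlgebraicGeometry CategoryTheory Pool.Agent.R904.CU Pool.Agent.R904

namespace Pool.Agent.R905.GO

variable {Λ Ω : Type} [Field Λ]

lemma twist_one {W : Type} [AddCommGroup W] [Module Λ W] (n : ℤ) (σ : Ω → Module.End Λ W) :
    twist (fun _ => 1) n σ = σ := by
  funext g
  ext x
  simp [twist_apply]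

namespace Cohomology

variable {K : Type} [Field K] (T : Cohomology K Λ Ω)

/-- `H^{n+2r}(E) = H^n(X)` for an affine bundle `E → X` of dimension `r` -/
def PlainBundle : Prop :=
  ∀ (r : ℕ) (E X : Scheme.{0}) (π : E ⟶ X) (f : X ⟶ Spec (.of K)), SepFinType K X f →
    SepFinType K E (π ≫ f) → IsAffineBundle r π → ∀ n m : ℤ, m = n + 2 * r →
    Equivalent (T.ρ X f n) (T.ρ E (π ≫ f) m)

/-- `σ` is a subquotient of some cohomology group of `X`. -/
def PlainOccursIn {W : Type} [AddCommGroup W] [Module Λ W] (σ : Ω → Module.End Λ W)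
    (X : Scheme.{0}) (f : X ⟶ Spec (.of K)) : Prop :=
  ∃ i : ℤ, Occurs σ (T.ρ X f i)

/-- Every irreducible subquotient of the cohomology with compact supports of a separated scheme of
finite type over `K` is a subquotient of that of a scheme in the class `S`. (If `S` is the class of
smooth projective schemes and `T` is `ℓ`-adic cohomology, this follows from de Jong's alterations.) -/
def Supplied (S : SchProp K) : Prop :=
  ∀ (X : Scheme.{0}) (f : X ⟶ Spec (.of K)), SepFinType K X f → ∀ (W : Type) [AddCommGroup W]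
    [Module Λ W] (τ : Ω → Module.End Λ W), Simple τ → T.PlainOccursIn τ X f →
      ∃ (Y : Scheme.{0}) (g : Y ⟶ Spec (.of K)), SepFinType K Y g ∧ S Y g ∧ T.PlainOccursIn τ Y g

variable {T}

lemma plain_iff {W : Type} [AddCommGroup W] [Module Λ W] (σ : Ω → Module.End Λ W)
    (X : Scheme.{0}) (f : X ⟶ Spec (.of K)) :
    T.OccursIn (fun _ => 1) σ X f ↔ T.PlainOccursIn σ X f := by
  constructor
  · rintro ⟨i, n, h⟩
    rw [twist_one] at h
    exact ⟨i, h⟩
  · rintro ⟨i, h⟩
    refine ⟨i, 0, ?_⟩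
    rwa [twist_one]

lemma plain_compact (h1 : T.LongExact) (h2 : T.PlainBundle) : T.CompactSupports (fun _ => 1) := by
  refine ⟨h1, ?_⟩
  intro r E X π f hX hE hπ n m hm
  obtain ⟨e, he⟩ := h2 r E X π f hX hE hπ n m hm
  refine ⟨e, fun g x => ?_⟩
  rw [twist_one, he]

variable {W : Type} [AddCommGroup W] [Module Λ W] {σ : Ω → Module.End Λ W}

theorem plain_models (h1 : T.LongExact) (h2 : T.PlainBundle) (hσ : Simple σ) {S : SchProp K}
    (hS : WM.Models S) :
    [∃ X f, SepFinType K X f ∧ S X f ∧ T.PlainOccursIn σ X f,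
     ∃ X f, SepFinType K X f ∧ T.PlainOccursIn σ X f,
     ∃ (ι : Type) (_ : Fintype ι) (F : MvPolynomial ι K), IsSmoothCubic F ∧
       T.PlainOccursIn σ _ (hyp F),
     ∃ (ι : Type) (_ : Fintype ι) (a : MvPolynomial ι K), a ∈ EL.elemProds (Set.univ : Set K) ι ∧
       T.PlainOccursIn σ _ (EL.complHom a)].TFAE := by
  have h := models (plain_compact h1 h2) hσ hS
  simp only [plain_iff] at h
  exact h

/-- the same without the bundles -/
theorem plain_arr (h1 : T.LongExact) (hσ : Simple σ) {S : SchProp K} (hS : WM.Models S) :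
    [∃ X f, SepFinType K X f ∧ S X f ∧ T.PlainOccursIn σ X f,
     ∃ X f, SepFinType K X f ∧ T.PlainOccursIn σ X f,
     ∃ (ι : Type) (_ : Fintype ι) (a : MvPolynomial ι K), a ∈ EL.elemProds (Set.univ : Set K) ι ∧
       T.PlainOccursIn σ _ (EL.complHom a)].TFAE := by
  have h' := arrangement (χ := fun _ => 1) h1 hσ
  simp only [plain_iff] at h'
  tfae_have 1 → 2 := fun ⟨X, f, hf, _, h1⟩ => ⟨X, f, hf, h1⟩
  tfae_have 2 ↔ 3 := h'
  tfae_have 2 → 1 := by
    rintro ⟨X, f, hf, h3⟩
    by_contra hne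
    refine all_of_models (P := T.Absent (fun _ => 1) σ) (twoOfThree h1 hσ) hS ?_ X f hf
      ((plain_iff σ X f).2 h3)
    intro Y g hg hY h2
    exact hne ⟨Y, g, hg, hY, (plain_iff σ Y g).1 h2⟩
  tfae_finish

theorem plain_supplied (h1 : T.LongExact) (h2 : T.PlainBundle) (hσ : Simple σ) {S : SchProp K}
    (hS : T.Supplied S) :
    [∃ X f, SepFinType K X f ∧ S X f ∧ T.PlainOccursIn σ X f,
     ∃ X f, SepFinType K X f ∧ T.PlainOccursIn σ X f,
     ∃ (ι : Type) (_ : Fintype ι) (F : MvPolynomial ι K), IsSmoothCubic F ∧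
       T.PlainOccursIn σ _ (hyp F),
     ∃ (ι : Type) (_ : Fintype ι) (a : MvPolynomial ι K), a ∈ EL.elemProds (Set.univ : Set K) ι ∧
       T.PlainOccursIn σ _ (EL.complHom a)].TFAE := by
  have h := compact (plain_compact h1 h2) hσ
  simp only [plain_iff] at h
  have h' := arrangement (χ := fun _ => 1) h1 hσ
  simp only [plain_iff] at h'
  tfae_have 1 → 2 := fun ⟨X, f, hf, _, h1⟩ => ⟨X, f, hf, h1⟩
  tfae_have 2 → 1 := fun ⟨X, f, hf, h3⟩ => hS X f hf W σ hσ h3
  tfae_have 2 ↔ 3 := h
  tfae_have 2 ↔ 4 := h'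
  tfae_finish

end Cohomology

end Pool.Agent.R905.GO
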